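import Pool.Agent.Helper97_WHC.Stmt
import Pool.Agent.Helper24_WHT.HEC
import Pool.Agent.Helper83_WHT.GENX

/-!
# Squad WHC, row WAL: the matrices of the Hecke operators near a wall
-/

set_option autoImplicit false

open scoped BigOperators

namespace Pool.Agent.WHC.H83

open Pool.Agent.DEN Pool.Agent.TMP Pool.Agent.WHT

/-! ## Sums over classes with a character -/

section
variable {K : Type} [Field K] {X : Type}

theorem bd_mono {m n : ℤ} (h : m ≤ n) {a : FF K} (ha : a ∈ Bd K m) : a ∈ Bd K n :=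
  (H22.hF1 K).2.2.2.2.1 m n a h ha

theorem bd_add {m : ℤ} {a b : FF K} (ha : a ∈ Bd K m) (hb : b ∈ Bd K m) : a + b ∈ Bd K m :=
  (H22.hF1 K).2.1 m a b ha hb

theorem bd_neg {m : ℤ} {a : FF K} (ha : a ∈ Bd K m) : -a ∈ Bd K m :=
  (H22.hF1 K).2.2.1 m a ha

theorem bd_sub {m : ℤ} {a b : FF K} (ha : a ∈ Bd K m) (hb : b ∈ Bd K m) : a - b ∈ Bd K m := by
  rw [sub_eq_add_neg]
  exact bd_add ha (bd_neg hb)

theorem bd_tt (n : ℤ) : tt K ^ n ∈ Bd K n := by
  have hF := H22.hF1 K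
  have h5 := (hF.2.2.2.2.2.2.2.1 n 1).2 (by
    have h6 := hF.2.2.2.2.2.1 1
    simpa using h6)
  rwa [mul_one] at h5

theorem exists_shell {b : FF K} {c M : ℤ} (hb : b ∈ Bd K M) (hb' : b ∉ Bd K c) :
    ∃ m, c < m ∧ m ≤ M ∧ b ∈ Bd K m ∧ b ∉ Bd K (m - 1) := by
  have hF := H22.hF1 K
  have h0 : b ≠ 0 := by
    rintro rfl
    exact hb' (hF.1 _)
  obtain ⟨m, u, e1, e2, e3, _, e5⟩ := hF.2.2.2.2.2.2.2.2 b h0
  have hm : b ∈ Bd K m := by
    rw [e1]
    exact (hF.2.2.2.2.2.2.2.1 m u).mpr e2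
  refine ⟨m, ?_, ?_, hm, e5⟩
  · by_contra h
    exact hb' (bd_mono (by omega) hm)
  · by_contra h
    exact e5 (bd_mono (by omega) hb)

theorem sum_zero {n c : ℤ} {P : FF K → X}
    (hP : ∀ b b', P b = P b' ↔ b - b' ∈ Bd K n) {A : Set (FF K)}
    (hA : ∀ b ∈ A, ∀ s ∈ Bd K c, s + b ∈ A) {a0 : FF K} (ha0 : a0 ∈ Bd K c)
    (hfin : (P '' A).Finite) {F : X → ℂ} {ζ : ℂ} (hζ : ζ ≠ 1)
    (hF : ∀ b ∈ A, F (P (a0 + b)) = ζ * F (P b)) : ∑ᶠ y ∈ P '' A, F y = 0 := by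
  classical
  let σ : X → X := fun y => P (a0 + Function.invFunOn P A y)
  have hin : ∀ y ∈ P '' A, Function.invFunOn P A y ∈ A ∧ P (Function.invFunOn P A y) = y :=
    fun y hy => ⟨Function.invFunOn_mem hy, Function.invFunOn_eq hy⟩
  have hσ : Set.BijOn σ (P '' A) (P '' A) := by
    refine ⟨fun y hy => ⟨_, hA _ (hin y hy).1 _ ha0, rfl⟩, ?_, ?_⟩
    · intro y hy y' hy' h
      have h1 := (hP _ _).1 h
      rw [add_sub_add_left_eq_sub] at h1
      rw [← (hin y hy).2, ← (hin y' hy').2]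
      exact (hP _ _).2 h1
    · rintro y ⟨b, hb, rfl⟩
      have hb' : -a0 + b ∈ A := hA b hb _ (bd_neg ha0)
      refine ⟨P (-a0 + b), ⟨_, hb', rfl⟩, ?_⟩
      have h2 := (hP _ _).1 (hin (P (-a0 + b)) ⟨_, hb', rfl⟩).2
      refine (hP _ _).2 ?_
      have e : a0 + Function.invFunOn P A (P (-a0 + b)) - b =
          Function.invFunOn P A (P (-a0 + b)) - (-a0 + b) := by ring
      rw [e]
      exact h2
  have h1 : ∑ᶠ y ∈ P '' A, F (σ y) = ∑ᶠ y ∈ P '' A, F y :=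
    finsum_mem_eq_of_bijOn σ hσ fun y _ => rfl
  have h2 : ∀ y ∈ P '' A, F (σ y) = ζ * F y := by
    intro y hy
    have h3 := hF _ (hin y hy).1
    rw [(hin y hy).2] at h3
    exact h3
  rw [finsum_mem_congr rfl h2, finsum_mem_eq_finite_toFinset_sum _ hfin,
    finsum_mem_eq_finite_toFinset_sum _ hfin, ← Finset.mul_sum] at h1
  rw [finsum_mem_eq_finite_toFinset_sum _ hfin]
  by_contra hne
  exact hζ (mul_right_cancel₀ hne (by rw [h1, one_mul]))

theorem sum_split {n c M : ℤ} (hnc : n ≤ c) (hcM : c ≤ M) {P : FF K → X}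
    (hP : ∀ b b', P b = P b' ↔ b - b' ∈ Bd K n) (hfin : (P '' Bd K M).Finite) (F : X → ℂ) :
    ∑ᶠ y ∈ P '' Bd K M, F y = ∑ᶠ y ∈ P '' Bd K c, F y + ∑ᶠ y ∈ P '' (Bd K M \ Bd K c), F y := by
  have hsub : (Bd K c : Set (FF K)) ⊆ Bd K M := fun b hb => bd_mono hcM hb
  have h1 : P '' Bd K M = P '' Bd K c ∪ P '' (Bd K M \ Bd K c) := by
    rw [← Set.image_union, Set.union_sdiff_cancel hsub]
  have h2 : Disjoint (P '' Bd K c) (P '' (Bd K M \ Bd K c)) := by
    rw [Set.disjoint_left]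
    rintro y ⟨b, hb, rfl⟩ ⟨b', hb', h⟩
    have h3 := bd_mono hnc ((hP _ _).1 h)
    apply hb'.2
    have e : b' = (b' - b) + b := by ring
    rw [e]
    exact bd_add h3 hb
  rw [h1, finsum_mem_union h2]
  · exact hfin.subset (Set.image_mono hsub)
  · exact hfin.subset (Set.image_mono Set.sdiff_subset)

theorem chs [Finite K] {n p c M : ℤ} (hnp : n ≤ p) (hpc : p ≤ c) (hcM : c + 1 ≤ M)
    {P : FF K → X} (hP : ∀ b b', P b = P b' ↔ b - b' ∈ Bd K n) {η : FF K → ℂ}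
    (hη : ∀ a b, η (a + b) = η a * η b) (hη1 : ∀ a ∈ Bd K c, η a = 1) {a0 : FF K}
    (ha0 : a0 ∈ Bd K (c + 1)) (ha1 : η a0 ≠ 1) (F : X → ℂ) (a : ℤ → ℂ)
    (hF0 : ∀ b ∈ Bd K p, F (P b) = η b * a p)
    (hF1 : ∀ m, p < m → m ≤ M → ∀ b ∈ Bd K m, b ∉ Bd K (m - 1) → F (P b) = η b * a m) :
    ∑ᶠ y ∈ P '' Bd K M, F y = (Nat.card K : ℂ) ^ (p - n) * a p +
      ∑ m ∈ Finset.Ioc p c, ((Nat.card K : ℂ) - 1) * (Nat.card K : ℂ) ^ (m - 1 - n) * a m -
      (Nat.card K : ℂ) ^ (c - n) * a (c + 1) := by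
  classical
  have hnc : n ≤ c := hnp.trans hpc
  have hfinM : (P '' Bd K M).Finite :=
    (hCls K X n M M (by omega) le_rfl P hP (fun _ => 0) (fun _ => 0) (fun _ _ => rfl)
      (fun _ _ _ _ _ _ => rfl)).1
  have hfinc : (P '' Bd K (c + 1)).Finite :=
    hfinM.subset (Set.image_mono fun b hb => bd_mono hcM hb)
  -- the character on the classes
  let e : X → ℂ := fun y => η (Function.invFunOn P Set.univ y)
  have he : ∀ b, e (P b) = η b := by
    intro b
    have h1 : P (Function.invFunOn P Set.univ (P b)) = P b :=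
      Function.invFunOn_eq ⟨b, Set.mem_univ _, rfl⟩
    have h2 := hη1 _ (bd_mono hnc ((hP _ _).1 h1))
    have h3 := hη (Function.invFunOn P Set.univ (P b) - b) b
    rw [sub_add_cancel, h2, one_mul] at h3
    exact h3
  -- the sum of the character over `Bd (c + 1)`
  have s1 : ∑ᶠ y ∈ P '' Bd K (c + 1), e y = 0 := by
    refine sum_zero (c := c + 1) hP (fun b hb s hs => bd_add hs hb) ha0 hfinc ha1 ?_
    intro b _
    rw [he, he, hη]
  have s2 : ∑ᶠ y ∈ P '' Bd K c, e y = (Nat.card K : ℂ) ^ (c - n) := by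
    have h := (hCls K X n c c hnc le_rfl P hP e (fun _ => 1)
      (fun b hb => by rw [he, hη1 b hb]) (fun m h1 h2 => absurd h1 (not_lt.mpr h2))).2
    rw [h, Finset.Ioc_self, Finset.sum_empty, add_zero, mul_one]
  have s3 : ∑ᶠ y ∈ P '' (Bd K (c + 1) \ Bd K c), e y = -(Nat.card K : ℂ) ^ (c - n) := by
    have h := sum_split hnc (by omega : c ≤ c + 1) hP hfinc e
    rw [s1, s2] at h
    exact (neg_eq_of_add_eq_zero_right h.symm).symm
  -- the sum over the first shell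
  have hfins : (P '' (Bd K (c + 1) \ Bd K c)).Finite :=
    hfinc.subset (Set.image_mono Set.sdiff_subset)
  have s4 : ∑ᶠ y ∈ P '' (Bd K (c + 1) \ Bd K c), F y =
      -((Nat.card K : ℂ) ^ (c - n) * a (c + 1)) := by
    have h1 : ∀ y ∈ P '' (Bd K (c + 1) \ Bd K c), F y = a (c + 1) * e y := by
      rintro y ⟨b, hb, rfl⟩
      rw [he, hF1 (c + 1) (by omega) hcM b hb.1 (by
        rw [add_sub_cancel_right]
        exact hb.2), mul_comm]
    rw [finsum_mem_congr rfl h1, finsum_mem_eq_finite_toFinset_sum _ hfins, ← Finset.mul_sum,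
      ← finsum_mem_eq_finite_toFinset_sum _ hfins, s3]
    ring
  -- the sum over `Bd c`
  have s5 := (hCls K X n p c hnp hpc P hP F a
    (fun b hb => by rw [hF0 b hb, hη1 b (bd_mono hpc hb), one_mul])
    (fun m h1 h2 b hb hb' => by
      rw [hF1 m h1 (by omega) b hb hb', hη1 b (bd_mono h2 hb), one_mul])).2
  -- the other shells
  have s6 : ∑ᶠ y ∈ P '' (Bd K M \ Bd K (c + 1)), F y = 0 := by
    refine sum_zero (c := c + 1) hP ?_ ha0
      (hfinM.subset (Set.image_mono Set.sdiff_subset)) ha1 ?_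
    · rintro b ⟨hb, hb'⟩ s hs
      refine ⟨bd_add (bd_mono hcM hs) hb, fun h => hb' ?_⟩
      have e1 : b = (s + b) - s := by ring
      rw [e1]
      exact bd_sub h hs
    · rintro b ⟨hb, hb'⟩
      obtain ⟨m, h1, h2, h3, h4⟩ := exists_shell hb hb'
      rw [hF1 m (by omega) h2 b h3 h4, hF1 m (by omega) h2 (a0 + b)
        (bd_add (bd_mono (by omega) ha0) h3) ?_, hη, mul_assoc]
      intro h
      apply h4
      have e1 : b = (a0 + b) - a0 := by ring
      rw [e1]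
      exact bd_sub h (bd_mono (by omega) ha0)
  rw [sum_split (by omega : n ≤ c + 1) hcM hP hfinM F, s6, add_zero,
    sum_split hnc (by omega : c ≤ c + 1) hP hfinc F, s4, s5]
  ring

theorem ioc_split (f : ℤ → ℂ) {a b d : ℤ} (h1 : a ≤ b) (h2 : b ≤ d) :
    ∑ m ∈ Finset.Ioc a d, f m = ∑ m ∈ Finset.Ioc a b, f m + ∑ m ∈ Finset.Ioc b d, f m := by
  rw [← Finset.sum_union]
  · congr 1
    ext m
    simp only [Finset.mem_Ioc, Finset.mem_union]
    omega
  · rw [Finset.disjoint_left]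
    intro m hm hm'
    rw [Finset.mem_Ioc] at hm hm'
    omega

end

/-! ## The group -/

section
variable {r : ℕ} {C : Matrix (Fin r) (Fin r) ℤ} {K : Type} [Field K] (hC : SimplyLaced C)
include hC

omit hC in
theorem hv_al (l : Fin r → ℤ) (e : ℤ) (i : Fin r) : hv (l + e • al i) = hv l + e := by
  unfold hv
  have h : ∀ j : Fin r, (l + e • al i) j = l j + e * al i j := fun j => by
    simp
  rw [Finset.sum_congr rfl (fun j _ => h j), Finset.sum_add_distrib, ← Finset.mul_sum]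
  have h2 : ∑ j, (al i : Fin r → ℤ) j = 1 := by
    unfold al
    simp
  rw [h2, mul_one]

theorem sc_Un (i : Fin r) {u : grp C K} (hu : u ∈ Un C K i) : sc hC i u = 0 := by
  classical
  have hU := Un_eq (K := K) hC i
  have hu' := hu
  rw [hU] at hu'
  induction hu' using Subgroup.closure_induction with
  | mem g hg =>
    obtain ⟨β, a, hβ, hne, rfl⟩ := hg
    rw [WHT.H83.sc_xg hC, if_neg]
    rintro rfl
    exact hne (SimplyLaced.sr_val hC i)
  | one => exact WHT.H83.sc_one hC i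
  | mul x y hx hy ihx ihy =>
    rw [← hU] at hx hy
    rw [WHT.H83.sc_mul hC (Un_le i hx) (Un_le i hy), ihx hx, ihy hy, add_zero]
  | inv x hx ih =>
    rw [← hU] at hx
    rw [WHT.H83.sc_inv hC (Un_le i hx), ih hx, neg_zero]

theorem goodU_of {N : Polynomial K} {χ : grp C K → ℂ} (hχ : IsChi N χ) {c : Fin r → ℤ}
    (hc : Cond hC χ c) {m : Fin r → ℤ} (hm : ∀ j, ip C (al j) m ≤ c j) : GoodU hC χ m := by
  intro u hu hfix
  rw [WHT.H83.chi_prod hC hχ hu]
  refine Finset.prod_eq_one fun i _ => (hc i).1 _ ?_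
  refine bd_mono (hm i) ?_
  have h1 := TMP.H63.fix_Bd hC hfix (hC.sr i) i
  rw [SimplyLaced.sr_val] at h1
  exact bd_neg h1

theorem wfU_eq {N : Polynomial K} {χ : grp C K → ℂ} (hχ : IsChi N χ) {m : Fin r → ℤ}
    (hm : GoodU hC χ m) {u : grp C K} (hu : u ∈ Ug C K) :
    wf hC χ m (u • tp hC K m) = χ u := by
  have h : ∃ v ∈ Ug C K, u • tp hC K m = v • tp hC K m := ⟨u, hu, rfl⟩
  unfold wf
  rw [dif_pos h]
  obtain ⟨h1, h2⟩ := h.choose_spec
  have h3 : (u⁻¹ * h.choose) • tp hC K m = tp hC K m := by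
    rw [mul_smul, ← h2, inv_smul_smul]
  have h4 := hm _ (mul_mem (inv_mem hu) h1) h3
  have h5 := hχ.mul u hu (u⁻¹ * h.choose) (mul_mem (inv_mem hu) h1)
  rw [mul_inv_cancel_left, h4, mul_one] at h5
  exact h5

theorem wfU_supp {χ : grp C K → ℂ} {m : Fin r → ℤ} {x : XX C K} (hx : wf hC χ m x ≠ 0) :
    x ∈ Hor hC K m := by
  by_contra h
  apply hx
  unfold wf
  exact dif_neg h

/-- The simple coordinates of `v` if `v t^l` is bounded by `ρ`. -/
theorem sc_bnd_tg (j : Fin r) {v : grp C K} {l : Fin r → ℤ} {ρ : ℕ}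
    (h : bnd ρ (v * tg hC K l)) : sc hC j v ∈ Bd K (ρ + ip C (al j) l) := by
  have hF := H22.hF1 K
  have h1 := (h (EE (hC.sr j).neg) (TMP.H39.EE_Cd _)).1 j
  have h2 : (v * tg hC K l).1 (EE (hC.sr j).neg) =
      v.1 ((tg hC K l).1 (EE (hC.sr j).neg)) := rfl
  rw [h2, WHT.H24.tg_EE, map_smul] at h1
  have h3 : tt K ^ (ip C (hC.sr j).neg.1 l) * (v.1 (EE (hC.sr j).neg)).1 j ∈ Bd K ρ := h1
  rw [Rt.neg_val, ip_neg_left, SimplyLaced.sr_val] at h3
  have h4 := hF.2.2.2.1 _ _ _ _ h3 (bd_tt (K := K) (ip C (al j) l))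
  have h5 : tt K ^ (-ip C (al j) l) * (v.1 (EE (hC.sr j).neg)).1 j * tt K ^ ip C (al j) l =
      (v.1 (EE (hC.sr j).neg)).1 j := by
    rw [mul_comm (tt K ^ (-ip C (al j) l)), mul_assoc, ← zpow_add₀ hF.2.2.2.2.2.2.1,
      neg_add_cancel, zpow_zero, mul_one]
  rw [h5] at h4
  exact bd_neg h4

theorem tg_horo (m m' : Fin r → ℤ) {v : grp C K} :
    tg hC K m' • (v • tp hC K (m - m')) =
      (tg hC K m' * v * (tg hC K m')⁻¹) • tp hC K m := by
  have e : tp hC K m = tg hC K m' • tp hC K (m - m') := by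
    rw [tg_tp, add_sub_cancel]
  rw [e, ← mul_smul, ← mul_smul]
  congr 1
  group

/-- The values of the translate of `wf` on the support of `k`. -/
theorem wf_class {N : Polynomial K} {χ : grp C K → ℂ} (hχ : IsChi N χ) {c : Fin r → ℤ}
    (hc : Cond hC χ c) {i : Fin r} {k : XX C K → XX C K → ℂ} {ρ : ℕ} (hR : Rad k ρ)
    {m m' : Fin r → ℤ} (hm : GoodU hC χ m) (hj : ∀ j, j ≠ i → ip C (al j) m + ρ ≤ c j)
    (b : FF K) {z : XX C K} (hz : z ∈ TMP.H75.Pc hC i (m - m') b)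
    (hkz : k (oo C K) z ≠ 0) :
    wf hC χ m (tg hC K m' • z) = χ (xi hC i (tt K ^ (ip C (al i) m') * b)) := by
  classical
  have hF := H22.hF1 K
  obtain ⟨u, hu, rfl⟩ := hz
  have hxb : xi hC i b ∈ Ug C K := xg_Ug hC (WHT.H83.sr_pos hC i) b
  have hv : u * xi hC i b ∈ Ug C K := mul_mem (Un_le i hu) hxb
  have ez : u • xi hC i b • tp hC K (m - m') = (u * xi hC i b) • tp hC K (m - m') :=
    (mul_smul _ _ _).symm
  rw [ez] at hkz ⊢
  have hw : tg hC K m' * (u * xi hC i b) * (tg hC K m')⁻¹ ∈ Ug C K := TMP.H58.tg_Ug hC m' hv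
  rw [tg_horo hC m m', wfU_eq hC hχ hm hw, WHT.H83.chi_prod hC hχ hw]
  have hb : bnd ρ (u * xi hC i b * tg hC K (m - m')) := by
    refine (hR _ ?_).1
    rw [mul_smul, tp_smul]
    exact hkz
  rw [Finset.prod_eq_single i]
  · have h1 : sc hC i (u * xi hC i b) = b := by
      rw [WHT.H83.sc_mul hC (Un_le i hu) hxb, sc_Un hC i hu, zero_add]
      have h2 := WHT.H83.sc_xg hC (hC.sr i) b i
      rw [if_pos rfl] at h2
      exact h2
    rw [WHT.H24.sc_conj, h1]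
  · intro j _ hji
    refine (hc j).1 _ ?_
    rw [WHT.H24.sc_conj]
    have h3 := hF.2.2.2.1 _ _ _ _ (bd_tt (K := K) (ip C (al j) m')) (sc_bnd_tg hC j hb)
    refine bd_mono ?_ h3
    rw [ip_sub_right]
    have := hj j hji
    omega
  · intro h
    exact absurd (Finset.mem_univ i) h

variable [Finite K]

omit [Finite K] in
theorem wa_eq {χ : grp C K → ℂ} {k : XX C K → XX C K → ℂ}
    (hk : IsKer k) (m m' : Fin r → ℤ) :
    wa hC χ k m' m = ∑ᶠ z ∈ Hor hC K (m - m'), k (oo C K) z * wf hC χ m (tg hC K m' • z) := by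
  unfold wa
  rw [← finsum_comp_equiv (MulAction.toPerm (tg hC K m'))]
  rw [finsum_mem_def]
  refine finsum_congr fun z => ?_
  rw [MulAction.toPerm_apply, ← tp_smul hC m', hk.inv]
  by_cases hz : z ∈ Hor hC K (m - m')
  · rw [Set.indicator_of_mem hz]
  · rw [Set.indicator_of_notMem hz]
    have h0 : wf hC χ m (tg hC K m' • z) = 0 := by
      by_contra h
      obtain ⟨u, hu, h1⟩ := wfU_supp hC h
      apply hz
      refine ⟨tg hC K (-m') * u * (tg hC K (-m'))⁻¹, TMP.H58.tg_Ug hC (-m') hu, ?_⟩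
      have h2 : z = tg hC K (-m') • (u • tp hC K m) := by
        rw [← h1, tg_neg, inv_smul_smul]
      have e : tp hC K (m - m') = tg hC K (-m') • tp hC K m := by
        rw [tg_tp]
        congr 1
        abel
      rw [h2, e, ← mul_smul, ← mul_smul]
      congr 1
      group
    rw [h0, mul_zero]

/-- The main formula. -/
theorem wa_formula {N : Polynomial K} {χ : grp C K → ℂ} (hχ : IsChi N χ) {c : Fin r → ℤ}
    (hc : Cond hC χ c) {i : Fin r} {k : XX C K → XX C K → ℂ} {ρ : ℕ} (hk : IsKer k)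
    (hR : Rad k ρ) {m m' : Fin r → ℤ} (hm : ∀ j, ip C (al j) m ≤ c j)
    (hm' : ∀ j, ip C (al j) m' ≤ c j) (hj : ∀ j, j ≠ i → ip C (al j) m + ρ ≤ c j) :
    wa hC χ k m' m = hsum hC k (m - m') - (Nat.card K : ℂ) ^ (c i + 1 - ip C (al i) m) *
      hsum hC k (m - m' + (c i + 1 - ip C (al i) m) • al i) := by
  classical
  have hF := H22.hF1 K
  have hmU : GoodU hC χ m := goodU_of hC hχ hc hm
  have hq : (Nat.card K : ℂ) ≠ 0 := by
    have : Nat.card K ≠ 0 := Nat.card_pos.ne'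
    exact_mod_cast this
  obtain ⟨l, hl⟩ : ∃ l, l = m - m' := ⟨_, rfl⟩
  obtain ⟨n, hn⟩ : ∃ n, ip C (al i) l = n := ⟨_, rfl⟩
  obtain ⟨c', hc'⟩ : ∃ c', c' = c i - ip C (al i) m' := ⟨_, rfl⟩
  obtain ⟨φ, hφ⟩ : ∃ φ : (Fin r → ℤ) → ℂ, φ = TMP.H75.phi hC k i := ⟨_, rfl⟩
  have hnm : n = ip C (al i) m - ip C (al i) m' := by rw [← hn, hl, ip_sub_right]
  have hmi := hm i
  have hmi' := hm' i
  have hnc : n ≤ c' := by omega
  have hc0 : 0 ≤ c' := by omega
  have hpc : max 0 n ≤ c' := max_le hc0 hnc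
  have he : c i + 1 - ip C (al i) m = c' + 1 - n := by omega
  rw [he, ← hl]
  -- the character
  obtain ⟨η, hη⟩ : ∃ η : FF K → ℂ,
      η = fun b => χ (xi hC i (tt K ^ (ip C (al i) m') * b)) := ⟨_, rfl⟩
  have hxm : ∀ (a : FF K), xi hC i a ∈ Ug C K := fun a => xg_Ug hC (WHT.H83.sr_pos hC i) a
  have hηa : ∀ a b, η (a + b) = η a * η b := by
    intro a b
    rw [hη]
    show χ (xi hC i (tt K ^ (ip C (al i) m') * (a + b))) = _
    rw [mul_add, TMP.H75.xi_add hC, hχ.mul _ (hxm _) _ (hxm _)]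
  have hη1 : ∀ a ∈ Bd K c', η a = 1 := by
    intro a ha
    rw [hη]
    refine (hc i).1 _ ?_
    have h1 := hF.2.2.2.1 _ _ _ _ (bd_tt (K := K) (ip C (al i) m')) ha
    exact bd_mono (by omega) h1
  obtain ⟨a1, ha1, ha1'⟩ := (hc i).2
  have htt : tt K ^ (ip C (al i) m') * (tt K ^ (-ip C (al i) m') * a1) = a1 := by
    rw [← mul_assoc, ← zpow_add₀ hF.2.2.2.2.2.2.1, add_neg_cancel, zpow_zero, one_mul]
  have ha0 : tt K ^ (-ip C (al i) m') * a1 ∈ Bd K (c' + 1) := by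
    have h1 := hF.2.2.2.1 _ _ _ _ (bd_tt (K := K) (-ip C (al i) m')) ha1
    exact bd_mono (by omega) h1
  have ha0' : η (tt K ^ (-ip C (al i) m') * a1) ≠ 1 := by
    rw [hη]
    show χ (xi hC i (tt K ^ (ip C (al i) m') * (tt K ^ (-ip C (al i) m') * a1))) ≠ 1
    rw [htt]
    exact ha1'
  -- the sums over the classes
  obtain ⟨M1, h1⟩ := TMP.H75.hsum_formula hC hKer hHor hCls hVis hk i l n hn
  obtain ⟨l', hl'⟩ : ∃ l', l' = l + (c' + 1 - n) • al i := ⟨_, rfl⟩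
  have hn' : ip C (al i) l' = 2 * c' + 2 - n := by
    rw [hl', ip_add_right, ip_smul_right, TMP.H75.ip_al_self hC, hn]
    ring
  obtain ⟨M2, h2⟩ := TMP.H75.hsum_formula hC hKer hHor hCls hVis hk i l' _ hn'
  have hfin : {y | k (oo C K) y * wf hC χ m (tg hC K m' • y) ≠ 0}.Finite :=
    (hk.fin (oo C K)).subset fun y hy => left_ne_zero_of_mul hy
  have hex : ∀ y : {y | k (oo C K) y * wf hC χ m (tg hC K m' • y) ≠ 0}, ∃ p : ℤ,
      y.1 ∈ Hor hC K l → ∃ b ∈ Bd K p, y.1 ∈ TMP.H75.Pc hC i l b := by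
    rintro ⟨y, hy⟩
    by_cases hyH : y ∈ Hor hC K l
    · obtain ⟨u, hu, rfl⟩ := hyH
      obtain ⟨b, u', hu', rfl⟩ := ups hC i hu
      obtain ⟨p, hp⟩ := TMP.H75.exists_Bd b
      refine ⟨p, fun _ => ⟨b, hp, u', hu', ?_⟩⟩
      show (u' * xi hC i b) • tp hC K l = u' • xi hC i b • tp hC K l
      rw [mul_smul]
    · exact ⟨0, fun h => absurd h hyH⟩
  choose mm hmm using hex
  have : Finite {y | k (oo C K) y * wf hC χ m (tg hC K m' • y) ≠ 0} := hfin
  obtain ⟨M0, hM0⟩ := (Set.finite_range mm).bddAbove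
  obtain ⟨M, hMM⟩ : ∃ M, M = max (max M0 M1) (max M2 (c' + 1)) := ⟨_, rfl⟩
  have hM0M : M0 ≤ M := by rw [hMM]; exact (le_max_left _ _).trans (le_max_left _ _)
  have hM1M : M1 ≤ M := by rw [hMM]; exact (le_max_right _ _).trans (le_max_left _ _)
  have hM2M : M2 ≤ M := by rw [hMM]; exact (le_max_left _ _).trans (le_max_right _ _)
  have hcM : c' + 1 ≤ M := by rw [hMM]; exact (le_max_right _ _).trans (le_max_right _ _)
  have e1 := h1 M hM1M (by omega)
  have e2 := h2 (M + (c' + 1 - n)) (by omega) (by omega)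
  -- the values on the classes
  have hval : ∀ b : FF K, ∑ᶠ y ∈ TMP.H75.Pc hC i l b,
      k (oo C K) y * wf hC χ m (tg hC K m' • y) =
      η b * ∑ᶠ y ∈ TMP.H75.Pc hC i l b, k (oo C K) y := by
    intro b
    rw [mul_finsum_mem (k (oo C K)) (η b)]
    refine finsum_mem_congr rfl fun y hy => ?_
    by_cases hky : k (oo C K) y = 0
    · rw [hky, zero_mul, mul_zero]
    · rw [hl] at hy
      rw [wf_class hC hχ hc hR hmU hj b hy hky, hη, mul_comm]
  have hT := chs (le_max_right 0 n) hpc hcM (P := TMP.H75.Pc hC i l)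
    (by
      intro b b'
      rw [TMP.H75.Pc_iff hC hHor i l b b', hn])
    hηa hη1 ha0 ha0' (fun O => ∑ᶠ y ∈ O, k (oo C K) y * wf hC χ m (tg hC K m' • y))
    (fun p => if p ≤ max 0 n then φ l else φ (l - p • al i))
    (fun b hb => by
      show _ = _ * if _ then _ else _
      rw [if_pos le_rfl, hval, hφ]
      congr 1
      refine TMP.H75.psi_small hC hKer hk i l ?_
      rw [hn]
      exact hb)
    (fun p hp _ b hb hb' => by
      show _ = _ * if _ then _ else _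
      rw [if_neg (not_le.mpr hp), hval, hφ]
      congr 1
      refine TMP.H75.psi_large hC hKer hVis hk i l ?_ hb hb'
      rw [hn]
      exact hp)
  have h3 : wa hC χ k m' m = ∑ᶠ O ∈ TMP.H75.Pc hC i l '' Bd K M,
      ∑ᶠ y ∈ O, k (oo C K) y * wf hC χ m (tg hC K m' • y) := by
    rw [wa_eq hC hk, ← hl]
    have hPf : (TMP.H75.Pc hC i l '' Bd K M).Finite :=
      (hCls K (Set (XX C K)) (ip C (al i) l) M M (by omega) le_rfl (TMP.H75.Pc hC i l)
        (TMP.H75.Pc_iff hC hHor i l) (fun _ => 0) (fun _ => 0) (fun _ _ => rfl)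
        (fun _ _ _ _ _ _ => rfl)).1
    apply TMP.H75.sum_classes (fun y => k (oo C K) y * wf hC χ m (tg hC K m' • y)) hfin _ _ hPf
    · rintro _ ⟨b, _, rfl⟩ _ ⟨b', _, rfl⟩ y hy hy'
      have f1 : TMP.H75.Ob i y = TMP.H75.Pc hC i l b := TMP.H75.Ob_eq hy
      have f2 : TMP.H75.Ob i y = TMP.H75.Pc hC i l b' := TMP.H75.Ob_eq hy'
      rw [← f1, f2]
    · rintro _ ⟨b, _, rfl⟩
      exact TMP.H75.Pc_sub hC i l b
    · intro y hy hy0
      obtain ⟨b, hb, hyb⟩ := hmm ⟨y, hy0⟩ hy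
      refine ⟨_, ⟨b, ?_, rfl⟩, hyb⟩
      have h2 : mm ⟨y, hy0⟩ ≤ M0 := hM0 ⟨_, rfl⟩
      exact bd_mono (h2.trans hM0M) hb
  rw [h3, hT, ← hl', e1, e2]
  -- the comparison
  have hmx : max 0 (2 * c' + 2 - n) = 2 * c' + 2 - n := max_eq_right (by omega)
  have hphi : TMP.H75.phi hC k i l' = φ (l - (c' + 1) • al i) := by
    rw [← TMP.H75.phi_sf hC hKer hVis hk i l', hφ]
    congr 1
    unfold sf
    rw [hn', hl']
    module
  have hsum : ∑ p ∈ Finset.Ioc (2 * c' + 2 - n) (M + (c' + 1 - n)),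
      ((Nat.card K : ℂ) - 1) * (Nat.card K : ℂ) ^ (p - 1 - (2 * c' + 2 - n)) *
        TMP.H75.phi hC k i (l' - p • al i) =
      ∑ p ∈ Finset.Ioc (c' + 1) M,
      ((Nat.card K : ℂ) - 1) * (Nat.card K : ℂ) ^ (p - c' - 2) * φ (l - p • al i) := by
    apply Finset.sum_nbij' (fun p => p - (c' + 1 - n)) (fun p => p + (c' + 1 - n))
    · intro p hp
      rw [Finset.mem_Ioc] at hp ⊢
      omega
    · intro p hp
      rw [Finset.mem_Ioc] at hp ⊢
      omega
    · intro p _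
      ring
    · intro p _
      ring
    · intro p _
      have f1 : p - 1 - (2 * c' + 2 - n) = p - (c' + 1 - n) - c' - 2 := by ring
      have f2 : l' - p • al i = l - (p - (c' + 1 - n)) • al i := by
        rw [hl']
        module
      rw [f1, f2, hφ]
  rw [hmx, sub_self, zpow_zero, one_mul, hphi, hsum, ← hφ]
  rw [ioc_split _ hpc (by omega : c' ≤ M), ioc_split _ (by omega : c' ≤ c' + 1) hcM]
  have hsing : Finset.Ioc c' (c' + 1) = {c' + 1} := by
    ext p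
    rw [Finset.mem_Ioc, Finset.mem_singleton]
    omega
  rw [hsing, Finset.sum_singleton]
  have g1 : ∑ p ∈ Finset.Ioc (max 0 n) c', ((Nat.card K : ℂ) - 1) *
      (Nat.card K : ℂ) ^ (p - 1 - n) * (if p ≤ max 0 n then φ l else φ (l - p • al i)) =
      ∑ p ∈ Finset.Ioc (max 0 n) c', ((Nat.card K : ℂ) - 1) *
      (Nat.card K : ℂ) ^ (p - 1 - n) * φ (l - p • al i) := by
    refine Finset.sum_congr rfl fun p hp => ?_
    rw [if_neg (not_le.mpr (Finset.mem_Ioc.mp hp).1)]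
  have g2 : ∑ p ∈ Finset.Ioc (c' + 1) M, ((Nat.card K : ℂ) - 1) *
      (Nat.card K : ℂ) ^ (p - 1 - n) * φ (l - p • al i) =
      (Nat.card K : ℂ) ^ (c' + 1 - n) * ∑ p ∈ Finset.Ioc (c' + 1) M,
      ((Nat.card K : ℂ) - 1) * (Nat.card K : ℂ) ^ (p - c' - 2) * φ (l - p • al i) := by
    rw [Finset.mul_sum]
    refine Finset.sum_congr rfl fun p _ => ?_
    have f3 : (Nat.card K : ℂ) ^ (p - 1 - n) =
        (Nat.card K : ℂ) ^ (c' + 1 - n) * (Nat.card K : ℂ) ^ (p - c' - 2) := by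
      rw [← zpow_add₀ hq]
      congr 1
      ring
    rw [f3]
    ring
  rw [g1, g2, if_pos le_rfl, if_neg (by omega : ¬ (c' + 1 ≤ max 0 n))]
  have f4 : (c' + 1 : ℤ) - 1 - n = c' - n := by ring
  have f5 : (Nat.card K : ℂ) ^ (c' + 1 - n) = (Nat.card K : ℂ) ^ (c' - n) * (Nat.card K : ℂ) := by
    rw [← zpow_add_one₀ hq]
    congr 1
    ring
  rw [f4, f5]
  ring

omit hC [Finite K] in
theorem rad_kst {k : XX C K → XX C K → ℂ} {ρ : ℕ} (hk : IsKer k) (hR : Rad k ρ) :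
    Rad (kst k) ρ := by
  intro g hg
  have h1 : kst k (oo C K) (g • oo C K) = (starRingEnd ℂ) (k (oo C K) (g⁻¹ • oo C K)) := by
    unfold kst
    rw [← hk.inv g (oo C K) (g⁻¹ • oo C K), smul_inv_smul]
  have h2 : k (oo C K) (g⁻¹ • oo C K) ≠ 0 := by
    intro h0
    apply hg
    rw [h1, h0, map_zero]
  have h3 := hR _ h2
  rw [inv_inv] at h3
  exact ⟨h3.2, h3.1⟩

theorem hsum_kst {k : XX C K → XX C K → ℂ} (hk : IsKer k) (l : Fin r → ℤ) :
    (starRingEnd ℂ) (hsum hC (kst k) l) = (Nat.card K : ℂ) ^ (-hv l) * sat hC k (-l) := by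
  have hq : (Nat.card K : ℂ) ≠ 0 := by
    have : Nat.card K ≠ 0 := Nat.card_pos.ne'
    exact_mod_cast this
  have h : (Nat.card K : ℂ) ^ hv l * hsum hC (kst k) l = (starRingEnd ℂ) (sat hC k (-l)) :=
    (hFla r C hC K k hk).1 l
  have h1 := congrArg (starRingEnd ℂ) h
  rw [map_mul, Complex.conj_conj, map_zpow₀, map_natCast] at h1
  rw [← h1, ← mul_assoc, ← zpow_add₀ hq, neg_add_cancel, zpow_zero, one_mul]

end

/-- WAL. -/
theorem wal : WalStmt := by
  intro r C hC K _ _ N χ hχ c hc i k ρ hk hR m m' hm hm' hj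
  classical
  have hq : (Nat.card K : ℂ) ≠ 0 := by
    have : Nat.card K ≠ 0 := Nat.card_pos.ne'
    exact_mod_cast this
  have hk' : IsKer (kst k) := (hKer r C hC K).2.2.1 k hk
  have hU : GoodU hC χ m' := goodU_of hC hχ hc hm'
  obtain ⟨e, he⟩ : ∃ e, e = c i + 1 - ip C (al i) m := ⟨_, rfl⟩
  unfold bt
  rw [if_pos hU, wa_formula hC hχ hc hk' (rad_kst hk hR) hm hm'
    (fun j hji => by have := hj j hji; omega), ← he, map_sub, map_mul, map_zpow₀, map_natCast,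
    hsum_kst hC hk, hsum_kst hC hk, hv_al]
  have h1 : hv (m - m') = hv m - hv m' := by
    unfold hv
    rw [← Finset.sum_sub_distrib]
    rfl
  have h2 : sat hC k (-(m - m' + e • al i)) =
      sat hC k (m' + (c i + 1 - ip C (al i) m') • al i - m) := by
    rw [← hWin r C hC K k hk i (-(m - m' + e • al i))]
    congr 1
    unfold sf
    rw [ip_neg_right, ip_add_right, ip_sub_right, ip_smul_right, TMP.H75.ip_al_self hC, he]
    module
  rw [h2, h1, neg_sub m m']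
  obtain ⟨s1, hs1⟩ : ∃ s, s = sat hC k (m' - m) := ⟨_, rfl⟩
  obtain ⟨s2, hs2⟩ : ∃ s, s = sat hC k (m' + (c i + 1 - ip C (al i) m') • al i - m) := ⟨_, rfl⟩
  rw [← hs1, ← hs2]
  have h3 : (Nat.card K : ℂ) ^ (hv m - hv m') * (Nat.card K : ℂ) ^ (-(hv m - hv m')) = 1 := by
    rw [← zpow_add₀ hq, add_neg_cancel, zpow_zero]
  have h4 : (Nat.card K : ℂ) ^ (hv m - hv m') * ((Nat.card K : ℂ) ^ e *
      (Nat.card K : ℂ) ^ (-(hv m - hv m' + e))) = 1 := by
    rw [← zpow_add₀ hq, ← zpow_add₀ hq]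
    have : hv m - hv m' + (e + -(hv m - hv m' + e)) = 0 := by ring
    rw [this, zpow_zero]
  calc (Nat.card K : ℂ) ^ (hv m - hv m') * ((Nat.card K : ℂ) ^ (-(hv m - hv m')) * s1 -
        (Nat.card K : ℂ) ^ e * ((Nat.card K : ℂ) ^ (-(hv m - hv m' + e)) * s2))
      = (Nat.card K : ℂ) ^ (hv m - hv m') * (Nat.card K : ℂ) ^ (-(hv m - hv m')) * s1 -
        (Nat.card K : ℂ) ^ (hv m - hv m') * ((Nat.card K : ℂ) ^ e *
          (Nat.card K : ℂ) ^ (-(hv m - hv m' + e))) * s2 := by ring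
    _ = s1 - s2 := by rw [h3, h4, one_mul, one_mul]

end Pool.Agent.WHC.H83
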